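import Pool.Agent.R88.LS.Fin
import Pool.Agent.R88.LS.A
import Pool.Agent.R88.LS.B
import Pool.Agent.R88.LS.C
import Pool.Agent.R88.LS.D
import Pool.Agent.R88.LS.F
import Pool.Agent.R88.LS.G
import Pool.Agent.R88.LS.H12
import Pool.Agent.R88.LS.H3
import Pool.Agent.R88.LS.I
import Pool.Agent.R88.LS.K

/-!
# The maximum load of heavily loaded local search allocation is not `m/n + Θ(R₂)` (MP_d24e49_pr)

The definitions (`place`, `alloc`, `maxLoad`, `ball`, `R2`, `VTrans`) are in
`Pool.Agent.R88.LS.Defs`; `place_rec` below is the defining recursion of the local search.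
The graphs are `C_N □ K_k` with `k → ∞` and `N` exponential in `k`.
-/

set_option autoImplicit false

namespace Pool.Agent.Results.MP_d24e49_pr.HeavyLoadFails

open Filter Topology
open scoped ENNReal
open Pool.Agent.R88.LS

open Classical in
/-- The recursion which defines the local search: if the current vertex `v` has a neighbour of
strictly smaller load, the ball moves to a uniformly random neighbour of minimum load; otherwise
it stays at `v`. -/
theorem place_rec (V : Type) [Fintype V] [DecidableEq V] (G : SimpleGraph V) (X : V → ℕ) (v : V) :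
    (∀ h : ∃ w, G.Adj v w ∧ X w < X v, place G X v =
      (PMF.uniformOfFinset (minNbr G X v)
        (minNbr_nonempty G X v ⟨h.choose, h.choose_spec.1⟩)).bind (fun w => place G X w)) ∧
    ((¬ ∃ w, G.Adj v w ∧ X w < X v) → place G X v = PMF.pure v) :=
  sA1 V G X v

/-- There are connected vertex-transitive graphs `G j` with `n → ∞`, `R₂ → ∞` and numbers `m j` of
balls with `m / (n R₂) → ∞`, for which the maximum load is at least `m/n + R₂²/26` with
probability tending to one; consequently, for all `c`, `C`, the probability of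
`m/n + c R₂ ≤ X_max ≤ m/n + C R₂` tends to zero. -/
theorem result :
    ∃ (V : ℕ → Type) (_ : ∀ j, Fintype (V j)) (_ : ∀ j, DecidableEq (V j))
      (_ : ∀ j, Nonempty (V j)) (G : ∀ j, SimpleGraph (V j)) (m : ℕ → ℕ),
      (∀ j, (G j).Connected) ∧ (∀ j, VTrans (G j)) ∧
      Tendsto (fun j => Fintype.card (V j)) atTop atTop ∧
      Tendsto (fun j => R2 (G j)) atTop atTop ∧
      Tendsto (fun j => (m j : ℝ) / ((Fintype.card (V j) : ℝ) * (R2 (G j) : ℝ))) atTop atTop ∧
      Tendsto (fun j => (alloc (G j) (m j)).toOuterMeasure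
        {X | (maxLoad X : ℝ) < (m j : ℝ) / Fintype.card (V j) + (R2 (G j) : ℝ) ^ 2 / 26})
        atTop (𝓝 0) ∧
      ∀ c C : ℝ, Tendsto (fun j => (alloc (G j) (m j)).toOuterMeasure
        {X | (m j : ℝ) / Fintype.card (V j) + c * (R2 (G j) : ℝ) ≤ (maxLoad X : ℝ) ∧
          (maxLoad X : ℝ) ≤ (m j : ℝ) / Fintype.card (V j) + C * (R2 (G j) : ℝ)})
        atTop (𝓝 0) :=
  final sA4 (sD sA3 (sC sA2 sA3 (sB sA1))) sG sH1 (sH (sH2 sF) sH3) sI1 sI2 sI3 sK

end Pool.Agent.Results.MP_d24e49_pr.HeavyLoadFails
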